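import Pool.Agent.H24.FP.Def

set_option autoImplicit false

/-! # Groups of type FP and FF and positive definite hermitian forms

Let `G` be a group of type FP, and `L` the last kernel, a projective module, of a partial free
resolution of `ℤ`. `G` is of type FF if and only if `L ⊕ (ℤG)^m` has, for some `m`, a positive definite
hermitian form which is generated by its orthogonal summands of finite rank. For every positive
definite form on `L` the obstruction lies in the orthogonal complement of the part generated by the
summands of finite rank. If `L` has a uniformly positive form which is generated by vectors of norm at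
most `2`, then `L` is free; generators of norm at most `3` are always possible. -/

namespace Pool.Agent.Results.MP_d19827_al.DefiniteKernels

open Matrix TH57.FF Pool.Agent.H24.FP Pool.Agent.Y75.SV

section defs

variable {G : Type} [Group G]

/-- `A` is the matrix of `F_{n+1} → F_n` in an exact sequence `F_{n+1} → F_n → ... → F_0 → ℤ → 0` of
free `ℤG`-modules with finite bases, and its image, the kernel of `F_n → F_{n-1}`, is projective -/
def LastKernel (n : ℕ) {m k : ℕ} (A : Matrix (Fin m) (Fin k) (MonoidAlgebra ℤ G)) : Prop :=
  Bd G n A ∧ Module.Projective (MonoidAlgebra ℤ G) (Im A)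

/-- For some `l`, the module `L ⊕ (ℤG)^l` has a positive definite hermitian form for which the
submodule generated by the orthogonal direct summands of finite rank is everything. -/
def HasDefiniteForm (G : Type) [Group G] (L : Type) [AddCommGroup L]
    [Module (MonoidAlgebra ℤ G) L] : Prop :=
  ∃ (l : ℕ) (φ : HermForm G (L × (Fin l → MonoidAlgebra ℤ G))), φ.Pos ∧ φ.finPart = ⊤

/-- For each positive definite hermitian form on `L` the finite part is finitely generated and
free, `L` is the direct sum of it and of its orthogonal complement, and `G` is of type FF if and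
only if this complement is stably free. -/
def ComplementDecides (G : Type) [Group G] (L : Type) [AddCommGroup L]
    [Module (MonoidAlgebra ℤ G) L] : Prop :=
  ∀ φ : HermForm G L, φ.Pos →
    Module.Finite (MonoidAlgebra ℤ G) φ.finPart ∧ Module.Free (MonoidAlgebra ℤ G) φ.finPart ∧
    IsCompl φ.finPart (orth φ) ∧ (TypeFF G ↔ SF (MonoidAlgebra ℤ G) (orth φ))

/-- `L` has a uniformly positive hermitian form for which it is generated by the vectors of norm
at most `2`. -/
def HasShortForm (G : Type) [Group G] (L : Type) [AddCommGroup L]
    [Module (MonoidAlgebra ℤ G) L] : Prop :=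
  ∃ φ : HermForm G L, φ.UniformlyPos ∧ φ.shortSpan = ⊤

/-- `HasDefiniteForm` for the image of `A` -/
def ImDefinite {m k : ℕ} (A : Matrix (Fin m) (Fin k) (MonoidAlgebra ℤ G)) : Prop :=
  HasDefiniteForm G (Im A)

/-- `ComplementDecides` for the image of `A` -/
def ImComplement {m k : ℕ} (A : Matrix (Fin m) (Fin k) (MonoidAlgebra ℤ G)) : Prop :=
  ComplementDecides G (Im A)

/-- `HasShortForm` for the image of `A` -/
def ImShort {m k : ℕ} (A : Matrix (Fin m) (Fin k) (MonoidAlgebra ℤ G)) : Prop :=
  HasShortForm G (Im A)

/-- the rows of `A` are vectors of norm at most `3`, for the standard form -/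
def ShortRows {m k : ℕ} (A : Matrix (Fin m) (Fin k) (MonoidAlgebra ℤ G)) : Prop :=
  ∀ i, ∑ j, sqNorm (A i j) ≤ 3

end defs

/-- `TypeFP G` and `TypeFF G` are the two sides of Q1; `Im A` is the image of `A`, the submodule
generated by the rows. Let `A` be the matrix of `F_{n+1} → F_n` in a partial resolution of `ℤ` by
finitely generated free modules, and let `Im A` be projective.
(1) `G` is of type FF if and only if `Im A ⊕ (ℤG)^m` has for some `m` a positive definite hermitian
form with finite part everything.
(2) For each positive definite hermitian form on `Im A` the finite part is a finitely generated free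
module, `Im A` is the direct sum of it and of its orthogonal complement, and `G` is of type FF if and
only if this complement is stably free.
(3) If `Im A` has a uniformly positive form for which it is generated by the vectors of norm at most
`2`, then `G` is of type FF, with a free resolution of length `n + 1`.
(4) For every group of type FP there are `n` and a matrix `A` as above, the rows of which are vectors
of norm at most `3`.
(5) So all groups of type FP are of type FF if and only if for all groups, all `n` and all these
matrices with rows of norm at most `3` there is a form as in (1). -/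
theorem result :
    (∀ (G : Type) [Group G] (n m k : ℕ) (A : Matrix (Fin m) (Fin k) (MonoidAlgebra ℤ G)),
      LastKernel n A → (TypeFF G ↔ ImDefinite A) ∧ ImComplement A ∧ (ImShort A → FFle G (n + 1))) ∧
    (∀ (G : Type) [Group G], TypeFP G ↔ ∃ (n q : ℕ)
      (A : Matrix (Fin q) (Fin q) (MonoidAlgebra ℤ G)), LastKernel n A ∧ ShortRows A) ∧
    ((∀ (G : Type) [Group G], TypeFP G → TypeFF G) ↔
      ∀ (G : Type) [Group G] (n q : ℕ) (A : Matrix (Fin q) (Fin q) (MonoidAlgebra ℤ G)),
        LastKernel n A → ShortRows A → ImDefinite A) := by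
  have h1 : ∀ (G : Type) [Group G] (n m k : ℕ) (A : Matrix (Fin m) (Fin k) (MonoidAlgebra ℤ G)),
      LastKernel n A → (TypeFF G ↔ ImDefinite A) := by
    intro G _ n m k A ⟨hA, hP⟩
    rw [FF_iff_Im n A hA hP]
    haveI := hP
    exact Pool.Agent.N632.CN.stablyFree_iff (tf_conv (FP_of_Bd n A hA hP))
  have h4 : ∀ (G : Type) [Group G], TypeFP G → ∃ (n q : ℕ)
      (A : Matrix (Fin q) (Fin q) (MonoidAlgebra ℤ G)), LastKernel n A ∧ ShortRows A := by
    intro G _ h
    obtain ⟨N, hN⟩ := FP_iff.1 h
    obtain ⟨m, k, A, hA⟩ := exists_Bd good_PF (fun M _ _ hM => hM.1) N hN (N + 1)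
    obtain ⟨q, A', hA', hg⟩ := Bd_norm N A hA
    exact ⟨N + 1, q, A', ⟨hA', Im_proj hN (N + 1) (by omega) A' hA'⟩, hg⟩
  refine ⟨fun G _ n m k A hA => ⟨h1 G n m k A hA, ?_, ?_⟩, fun G _ => ⟨h4 G, ?_⟩, ?_, ?_⟩
  · intro φ hφ
    obtain ⟨hA, hP⟩ := hA
    have htf := tf_conv (FP_of_Bd n A hA hP)
    haveI := hP
    obtain ⟨k', b, _⟩ := Pool.Agent.Y75.EK.main_fin htf φ hφ
    refine ⟨Module.Finite.of_basis b, Module.Free.of_basis b, isCompl_orth htf φ hφ, ?_⟩
    rw [FF_iff_Im n A hA hP]
    exact SF_orth htf φ hφ
  · rintro ⟨φ, hφ, h⟩
    exact FFle_of_short n A hA.1 hA.2 φ hφ h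
  · rintro ⟨n, q, A, ⟨hA, hP⟩, _⟩
    exact FP_of_Bd n A hA hP
  · intro h G _ n q A hA _
    exact (h1 G n q q A hA).1 (h G (FP_of_Bd n A hA.1 hA.2))
  · intro h G _ hFP
    obtain ⟨n, q, A, hA, hs⟩ := h4 G hFP
    exact (h1 G n q q A hA).2 (h G n q A hA hs)

end Pool.Agent.Results.MP_d19827_al.DefiniteKernels
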