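import Pool.Agent.H24.FP.Gram

set_option autoImplicit false

/-! # Groups of type FP and FF and boundary matrices with a dominant Gram matrix

Let `A` be the matrix of `F_{n+1} → F_n` in a partial free resolution of the trivial module of a
torsion-free group. If the Gram matrix `A A^*` is diagonally dominant, possibly with weights, or more
generally if the image of `A` has a positive definite hermitian form and generators with a dominant Gram
matrix, then `G` is of type FF. The constant is sharp: for every `c > 1` every matrix `F_{n+1} → F_n`
can be replaced by one whose Gram matrix is dominant with the factor `c`.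

Outline. If `v_i` are generators of `L = Im A` with Gram matrix `M`, then `x ↦ (φ(x, v_j))_j` embeds `L`
in `(ℤG)^r`, and its image is the row space of `M`, which is free by the theorem on dominant matrices of
the starting library (`R719`). For the sharpness one adds an identity matrix to `A` and multiplies with a
unitriangular matrix; then the Gram matrix is `(A A^* + N, X; X^*, 1)` with `X X^* = N`. -/

namespace Pool.Agent.Results.MP_d19827_al.GramDominance

open Matrix TH57.FF TH6.LF Pool.Agent.H24.FP Pool.Agent.Y75.SV

section defs

variable {G : Type} [Group G]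

/-- the sum of the absolute values of the coefficients -/
def norm1 (x : MonoidAlgebra ℤ G) : ℕ := ∑ g ∈ x.coeff.support, (x.coeff g).natAbs

/-- The module `L` has a positive definite hermitian form `φ` and finitely many generators `v i`, with
integral weights `w i > 0`, such that for each `i` the sum of `w j` times the absolute values of the
coefficients of `φ (v i) (v j)`, over all `j` and all coefficients except the coefficient of `1` of
`φ (v i) (v i)`, is at most `w i` times this coefficient. -/
def DominantGenerators (G : Type) [Group G] (L : Type) [AddCommGroup L]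
    [Module (MonoidAlgebra ℤ G) L] : Prop :=
  ∃ (φ : HermForm G L) (r : ℕ) (v : Fin r → L) (w : Fin r → ℕ), φ.Pos ∧
    Submodule.span (MonoidAlgebra ℤ G) (Set.range v) = ⊤ ∧ (∀ i, 0 < w i) ∧
    ∀ i, ∑ j, (w j : ℤ) * (norm1 (φ.val (v i) (v j)) : ℤ) ≤ 2 * (w i * φ.norm (v i))

/-- `DominantGenerators` for the image of the matrix `A` -/
def DominantImage {m k : ℕ} (A : Matrix (Fin m) (Fin k) (MonoidAlgebra ℤ G)) : Prop :=
  DominantGenerators G (Im A)

/-- The Gram matrix `A A^*` of the rows of `A` for the standard form; the adjoint matrix `A^*` is the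
transposed matrix with the involution `g ↦ g⁻¹` applied to the entries. -/
noncomputable def gram {m k : ℕ} (A : Matrix (Fin m) (Fin k) (MonoidAlgebra ℤ G)) :
    Matrix (Fin m) (Fin m) (MonoidAlgebra ℤ G) := A * adj A

/-- There are integral weights `w i > 0` such that for each `i` the sum of `w j` times the absolute
values of the coefficients of the entries `(i, j)` of the Gram matrix, except the coefficient of `1` in
the diagonal entry, is at most `w i` times this coefficient. -/
def WeightedDominantGram {m k : ℕ} (A : Matrix (Fin m) (Fin k) (MonoidAlgebra ℤ G)) : Prop :=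
  ∃ w : Fin m → ℕ, (∀ i, 0 < w i) ∧
    ∀ i, ∑ j, (w j : ℤ) * (norm1 (gram A i j) : ℤ) ≤ 2 * (w i * (gram A i i).coeff 1)

/-- The image of `A` has generators with a dominant Gram matrix, for some positive definite form; or
the Gram matrix of the rows is dominant (in both cases with weights). -/
def Dominated {m k : ℕ} (A : Matrix (Fin m) (Fin k) (MonoidAlgebra ℤ G)) : Prop :=
  DominantImage A ∨ WeightedDominantGram A

/-- In each row of the Gram matrix the sum of the absolute values of all coefficients, except the
coefficient of `1` in the diagonal entry, is at most `c` times this coefficient. -/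
def DominantGram (c : ℝ) {m k : ℕ} (A : Matrix (Fin m) (Fin k) (MonoidAlgebra ℤ G)) : Prop :=
  ∀ i, (∑ j, (norm1 (gram A i j) : ℝ)) - |((gram A i i).coeff 1 : ℝ)|
    ≤ c * ((gram A i i).coeff 1 : ℝ)

/-- If the image of `A` is projective, it is stably free. -/
def StablyFreeIfProjective {m k : ℕ} (A : Matrix (Fin m) (Fin k) (MonoidAlgebra ℤ G)) : Prop :=
  Module.Projective (MonoidAlgebra ℤ G) (Im A) → SF (MonoidAlgebra ℤ G) (Im A)

/-- torsion-free groups -/
def TorsionFree (G : Type) [Group G] : Prop := ∀ g : G, IsOfFinOrder g → g = 1

end defs

/-- `Bd G n A` (from `Pool.Agent.TH57.FF.BdDefs`): `A` is the matrix of `F_{n+1} → F_n` in an exact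
sequence `F_{n+1} → F_n → ... → F_0 → ℤ → 0` of `ℤG`-modules in which all `F_i` are free with finite
bases. `TypeFP G` and `TypeFF G` are the two sides of Q1.

Let `G` be torsion-free. (1) If the image of `A` has a positive definite hermitian form and generators
with a diagonally dominant Gram matrix (with weights), then `G` is of type FF, with a free resolution
of length `n + 1`; in particular this is true if the Gram matrix `A A^*` is dominant (with weights).
(2) If the matrix `A` of `F_{n+2} → F_{n+1}` has a projective cokernel and `A^*` has one of these two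
properties, for instance if `A^* A` is dominant, then `G` is of type FF, with a free resolution of length
`n + 2`. The constant `1` is sharp: let `c > 1`. (3) For every group, a matrix `F_{n+1} → F_n` can be
replaced by one (with the same `n`) whose Gram matrix is diagonally dominant with the factor `c`. (4) So
all groups of type FP are of type FF if and only if the projective images of the matrices of this kind
are stably free, for all groups and all `n`. -/
theorem result :
    (∀ (G : Type) [Group G], TorsionFree G → ∀ (n m k : ℕ)
      (A : Matrix (Fin m) (Fin k) (MonoidAlgebra ℤ G)), Bd G n A → Dominated A →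
      FFle G (n + 1)) ∧
    (∀ (G : Type) [Group G], TorsionFree G → ∀ (n m k : ℕ)
      (A : Matrix (Fin m) (Fin k) (MonoidAlgebra ℤ G)), Bd G (n + 1) A →
      Module.Projective (MonoidAlgebra ℤ G) (Cok A) → Dominated (adj A) → FFle G (n + 2)) ∧
    (∀ (G : Type) [Group G] (n m k : ℕ) (A : Matrix (Fin m) (Fin k) (MonoidAlgebra ℤ G)),
      Bd G n A → ∀ c : ℝ, 1 < c →
      ∃ (m' k' : ℕ) (A' : Matrix (Fin m') (Fin k') (MonoidAlgebra ℤ G)),
        Bd G n A' ∧ DominantGram c A') ∧
    (∀ c : ℝ, 1 < c →
      ((∀ (G : Type) [Group G], TypeFP G → TypeFF G) ↔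
        ∀ (G : Type) [Group G] (n m k : ℕ) (A : Matrix (Fin m) (Fin k) (MonoidAlgebra ℤ G)),
          Bd G n A → DominantGram c A → StablyFreeIfProjective A)) := by
  have htf' : ∀ (G : Type) [Group G], TorsionFree G →
      ∀ g : G, ∀ k : ℕ, 0 < k → g ^ k = 1 → g = 1 := fun G _ htf g k hk h =>
    htf g (isOfFinOrder_iff_pow_eq_one.2 ⟨k, hk, h⟩)
  refine ⟨?_, ?_, fun G _ n m k A hA c hc => Bd_gram n A hA c hc, fun c hc => ⟨?_, ?_⟩⟩
  · intro G _ htf n m k A hA h
    rcases h with ⟨φ, r, v, w, h1, h2, h3, h4⟩ | ⟨w, h3, h4⟩
    · exact FFle_of_gram (htf' G htf) n A hA φ h1 v h2 w h3 h4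
    · exact FFle_of_rows (htf' G htf) n A hA w h3 h4
  · intro G _ htf n m k A hA hP h
    exact FFle_of_cols (htf' G htf) n A hA hP h
  · intro h G _ n m k A hA _ hP
    exact (FF_iff_Im n A hA hP).1 (h G (FP_of_Bd n A hA hP))
  · intro h G _ hFP
    obtain ⟨N, hN⟩ := FP_iff.1 hFP
    obtain ⟨m, k, A, hA⟩ := exists_Bd good_PF (fun M _ _ hM => hM.1) N hN N
    obtain ⟨m', k', A', hA', hD⟩ := Bd_gram N A hA c hc
    have hP := Im_proj hN N (Nat.le_succ N) A' hA'
    exact (FF_iff_Im N A' hA' hP).2 (h G N m' k' A' hA' hD hP)

end Pool.Agent.Results.MP_d19827_al.GramDominance
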