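import Pool.Agent.H24.FP.Grid

set_option autoImplicit false

/-! # Groups of type FP and FF and boundary matrices on the square grid

For an exact sequence `F_{n+2} → F_{n+1} → ... → F_0 → ℤ → 0` of finitely generated free
`ℤG`-modules, and any set `S` of generators of `G`, the last boundary matrix can be replaced by a
square matrix supported on a finite piece of the square grid, with entries `± s`, `s = 1`, `s ∈ S` or
`s⁻¹ ∈ S`, and at most three nonzero entries in each row and column. So a group of type FP is of type
FF if and only if the cokernels of these matrices are stably free, when they are projective; and this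
is true if there are at most two nonzero entries `± g` in each row, or in each column.

Outline. The normal form of matrices on the grid (starting library, `R472`) uses stabilisation and
multiplication by invertible matrices only; these operations extend to the exact sequence. The
dictionary between resolutions and the last boundary matrix is Schanuel's lemma. -/

namespace Pool.Agent.Results.MP_d19827_al.GridBoundary

open Matrix TH57.FF Pool.Agent.H24.FP

section defs

variable {G : Type} [Group G]

/-- `A` is the matrix of `F_{n+2} → F_{n+1}` in an exact sequence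
`F_{n+2} → F_{n+1} → ... → F_0 → ℤ → 0` of free `ℤG`-modules with finite bases, and it is supported
on a piece of the square grid. -/
def GridBd (S : Set G) (n : ℕ) {q : ℕ} (A : Matrix (Fin q) (Fin q) (MonoidAlgebra ℤ G)) : Prop :=
  Bd G (n + 1) A ∧ OnGrid S A

/-- the cokernel of `A` is projective -/
def ProjCok {m k : ℕ} (A : Matrix (Fin m) (Fin k) (MonoidAlgebra ℤ G)) : Prop :=
  Module.Projective (MonoidAlgebra ℤ G) (Cok A)

/-- the cokernel of `A` is stably free -/
def StFreeCok {m k : ℕ} (A : Matrix (Fin m) (Fin k) (MonoidAlgebra ℤ G)) : Prop :=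
  SF (MonoidAlgebra ℤ G) (Cok A)

/-- the projective cokernels of boundary matrices on the grid are stably free -/
def GridStFree (S : Set G) : Prop :=
  ∀ (n q : ℕ) (A : Matrix (Fin q) (Fin q) (MonoidAlgebra ℤ G)), GridBd S n A → ProjCok A →
    StFreeCok A

end defs

/-- `Bd G n A` (from `Pool.Agent.TH57.FF.BdDefs`): `A` is the matrix of `F_{n+1} → F_n` in an exact
sequence `F_{n+1} → F_n → ... → F_0 → ℤ → 0` of `ℤG`-modules in which all `F_i` are free with finite
bases. `TypeFP G` and `TypeFF G` are the two sides of Q1.

Let `G` be a group and `S` a set of generators of `G`.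
(1) If there is an exact sequence `F_{n+2} → F_{n+1} → ... → F_0 → ℤ → 0`, there is one (with the
same `n`) in which the matrix of `F_{n+2} → F_{n+1}` is supported on the grid.
(2) `G` is of type FP if and only if there are `n` and such a matrix with a projective cokernel.
(3) If the matrix `A` of `F_{n+2} → F_{n+1}` has a projective cokernel, `G` is of type FF if and only
if the cokernel is stably free.
(4) The following are equivalent: all groups of type FP are of type FF; the projective cokernels of
boundary matrices on the grid are stably free, for all groups `G`, all sets `S` of generators and all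
`n`; for each group `G` there is a set `S` of generators for which this is true for all `n`.
(5) Three cannot be replaced by two in (4): if some matrix of `F_{n+2} → F_{n+1}`, of any shape, has a
projective cokernel, only entries `0` and `± g`, and at most two nonzero entries in each row or at most
two in each column, then `G` is of type FF. -/
theorem result :
    (∀ (G : Type) [Group G] (S : Set G), Subgroup.closure S = ⊤ →
      ∀ (n m k : ℕ) (A : Matrix (Fin m) (Fin k) (MonoidAlgebra ℤ G)), Bd G (n + 1) A →
      ∃ (q : ℕ) (A' : Matrix (Fin q) (Fin q) (MonoidAlgebra ℤ G)), GridBd S n A') ∧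
    (∀ (G : Type) [Group G] (S : Set G), Subgroup.closure S = ⊤ →
      (TypeFP G ↔ ∃ (n q : ℕ) (A : Matrix (Fin q) (Fin q) (MonoidAlgebra ℤ G)),
        GridBd S n A ∧ ProjCok A)) ∧
    (∀ (G : Type) [Group G] (n m k : ℕ) (A : Matrix (Fin m) (Fin k) (MonoidAlgebra ℤ G)),
      Bd G (n + 1) A → ProjCok A → (TypeFF G ↔ StFreeCok A)) ∧
    List.TFAE [∀ (G : Type) [Group G], TypeFP G → TypeFF G,
      ∀ (G : Type) [Group G] (S : Set G), Subgroup.closure S = ⊤ → GridStFree S,
      ∀ (G : Type) [Group G], ∃ S : Set G, Subgroup.closure S = ⊤ ∧ GridStFree S] ∧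
    (∀ (G : Type) [Group G] (n m k : ℕ) (A : Matrix (Fin m) (Fin k) (MonoidAlgebra ℤ G)),
      Bd G (n + 1) A → ProjCok A → SignedElements A →
      ((∀ i, {j | A i j ≠ 0}.ncard ≤ 2) ∨ (∀ j, {i | A i j ≠ 0}.ncard ≤ 2)) → TypeFF G) := by
  classical
  have key : ∀ (G : Type) [Group G] (S : Set G), Subgroup.closure S = ⊤ → TypeFP G →
      ∃ (n q : ℕ) (A : Matrix (Fin q) (Fin q) (MonoidAlgebra ℤ G)),
        GridBd S n A ∧ ProjCok A := by
    intro G _ S hS h
    obtain ⟨N, hN⟩ := FP_iff.1 h
    obtain ⟨m, k, A, hA⟩ := exists_Bd good_PF (fun M _ _ hM => hM.1) N hN (N + 1)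
    obtain ⟨q, A', hA', hg⟩ := Bd_grid S hS N A hA
    exact ⟨N, q, A', ⟨hA', hg⟩, Cok_proj hN N (Nat.le_succ N) A' hA'⟩
  refine ⟨fun G _ S hS n m k A hA => Bd_grid S hS n A hA, fun G _ S hS => ⟨key G S hS, ?_⟩,
    fun G _ n m k A hA hP => FF_iff_Cok n A hA hP, ?_, ?_⟩
  · rintro ⟨n, q, A, hA, hP⟩
    exact FP_of_Cok n A hA.1 hP
  · tfae_have 1 → 2 := by
      intro h G _ S hS n q A hA hP
      exact (FF_iff_Cok n A hA.1 hP).1 (h G (FP_of_Cok n A hA.1 hP))
    tfae_have 2 → 3 := fun h G _ => ⟨Set.univ, Subgroup.closure_univ,
      h G Set.univ Subgroup.closure_univ⟩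
    tfae_have 3 → 1 := by
      intro h G _ hFP
      obtain ⟨S, hS, h1⟩ := h G
      obtain ⟨n, q, A, hA, hP⟩ := key G S hS hFP
      exact (FF_iff_Cok n A hA.1 hP).2 (h1 n q A hA hP)
    tfae_finish
  · intro G _ n m k A hA hP hs h
    refine (FF_iff_Cok n A hA hP).2 ?_
    rcases h with h | h
    · have h1 := Pool.Agent.R472.Grid.free_two_rows A h hs (Cok A) hP (LinearEquiv.refl _ _)
      exact SF_of_free inferInstance h1
    · exact Pool.Agent.R472.Grid.free_two_cols A h hs (Cok A) hP (LinearEquiv.refl _ _)

end Pool.Agent.Results.MP_d19827_al.GridBoundary
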