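import Pool.Agent.H24.FP.Acute

set_option autoImplicit false

/-! # Groups of type FP and FF and generators with nonpositive inner products

Let `A` be the matrix of `F_{n+1} → F_n` in a partial free resolution of the trivial module of a
torsion-free group. Suppose that the image of `A` has a positive definite hermitian form and generators
whose translates have, up to signs, pairwise nonpositive inner products, or such that the graph of
nonzero inner products between the translates has no cycles. Then `G` is of type FF. This is sharp: for
`n > 0` every matrix `F_{n+1} → F_n` can be replaced by one for which each row has a positive inner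
product with at most one translate of a row.

Outline. Let `y` be a relation between generators with nonpositive inner products up to signs, and
`y = p - q` its decomposition into the parts which agree and disagree with the signs. The vector `x` given
by `p` and by `q` satisfies `⟨x, x⟩ ≤ 0`, so it is zero, and `p` and `q` are relations. Then a vector
outside the support of `p` is orthogonal to those in the support. So the supports of relations are closed
in the graph of the Gram matrix; minimal ones have a trivial stabiliser since `G` is torsion-free, and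
one can split off a free module as in the theorem on dominant matrices of the starting library (`R719`).
If the graph has no cycles, suitable signs exist. For the sharpness one replaces each entry `η s`
(`η = ±1`) of a matrix with at most three nonzero entries in each row and column, all of them `± s`, by a
path of length four. -/

namespace Pool.Agent.Results.MP_d19827_al.ObtuseGenerators

open Matrix TH57.FF TH6.LF Pool.Agent.H24.FP Pool.Agent.Y75.SV

section defs

variable {G : Type} [Group G]

/-- If `M i j = φ (v i) (v j)` for a hermitian form `φ`, this is the inner product of the translates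
`g • v i` and `h • v j`, where `u = (i, g)` and `w = (j, h)`. -/
noncomputable def ip {r : ℕ} (M : Matrix (Fin r) (Fin r) (MonoidAlgebra ℤ G)) (u w : Fin r × G) : ℤ :=
  (M u.1 w.1).coeff (u.2⁻¹ * w.2)

/-- There are signs on the translates (not necessarily invariant under `G`) such that the product of
the inner product of two different translates and their signs is always `≤ 0`. -/
def ObtuseUpToSigns {r : ℕ} (M : Matrix (Fin r) (Fin r) (MonoidAlgebra ℤ G)) : Prop :=
  ∃ σ : Fin r × G → ℤ, (∀ u, σ u = 1 ∨ σ u = -1) ∧ ∀ u w, u ≠ w → σ u * σ w * ip M u w ≤ 0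

/-- The graph with vertices the translates and edges the pairs of different translates with a nonzero
inner product has no cycles. -/
def NoCycles {r : ℕ} (M : Matrix (Fin r) (Fin r) (MonoidAlgebra ℤ G)) : Prop :=
  (SimpleGraph.fromRel fun u w : Fin r × G => ip M u w ≠ 0).IsAcyclic

/-- The module `L` has a positive definite hermitian form `φ` and finitely many generators `v i` with
one of these two properties. -/
def HasObtuseGenerators (G : Type) [Group G] (L : Type) [AddCommGroup L]
    [Module (MonoidAlgebra ℤ G) L] : Prop :=
  ∃ (φ : HermForm G L) (r : ℕ) (v : Fin r → L), φ.Pos ∧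
    Submodule.span (MonoidAlgebra ℤ G) (Set.range v) = ⊤ ∧
    (ObtuseUpToSigns (fun i j => φ.val (v i) (v j)) ∨ NoCycles (fun i j => φ.val (v i) (v j)))

/-- The Gram matrix `A A^*` of the rows of `A` for the standard form; the adjoint matrix `A^*` is the
transposed matrix with the involution `g ↦ g⁻¹` applied to the entries. -/
noncomputable def gram {m k : ℕ} (A : Matrix (Fin m) (Fin k) (MonoidAlgebra ℤ G)) :
    Matrix (Fin m) (Fin m) (MonoidAlgebra ℤ G) := A * adj A

/-- The image of `A` has such a form and such generators; or the rows of `A` have one of the two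
properties for the standard form. -/
def ObtuseImage {m k : ℕ} (A : Matrix (Fin m) (Fin k) (MonoidAlgebra ℤ G)) : Prop :=
  HasObtuseGenerators G (Im A) ∨ ObtuseUpToSigns (gram A) ∨ NoCycles (gram A)

/-- For each row `A i`: its norm is at most `3`, its inner products with the other translates `g • A j`
are `-1`, `0` or `1`, and at most one of them is `1`. -/
def OneAcutePartner {m k : ℕ} (A : Matrix (Fin m) (Fin k) (MonoidAlgebra ℤ G)) : Prop :=
  ∀ i : Fin m, (gram A i i).coeff 1 ≤ 3 ∧
    (∀ (j : Fin m) (g : G), (i, (1 : G)) ≠ (j, g) → |(gram A i j).coeff g| ≤ 1) ∧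
    {p : Fin m × G | (i, 1) ≠ p ∧ 0 < (gram A i p.1).coeff p.2}.Subsingleton

/-- If the image of `A` is projective, it is stably free. -/
def StablyFreeIfProjective {m k : ℕ} (A : Matrix (Fin m) (Fin k) (MonoidAlgebra ℤ G)) : Prop :=
  Module.Projective (MonoidAlgebra ℤ G) (Im A) → SF (MonoidAlgebra ℤ G) (Im A)

/-- torsion-free groups -/
def TorsionFree (G : Type) [Group G] : Prop := ∀ g : G, IsOfFinOrder g → g = 1

end defs

theorem rows {G : Type} [Group G] {m k : ℕ} (A : Matrix (Fin m) (Fin k) (MonoidAlgebra ℤ G)) :
    ∃ v : Fin m → Im A, Submodule.span (MonoidAlgebra ℤ G) (Set.range v) = ⊤ ∧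
      (fun i j => (stdIm A).val (v i) (v j)) = gram A := by
  let v : Fin m → Im A := fun i => ⟨A i, Pi.single i 1, by
    rw [Matrix.vecMulLinear_apply, Matrix.single_one_vecMul]; rfl⟩
  refine ⟨v, ?_, ?_⟩
  · rw [eq_top_iff]
    rintro ⟨_, y, rfl⟩ _
    have h2 : (⟨A.vecMulLinear y, y, rfl⟩ : Im A) = ∑ i, y i • v i := by
      apply Subtype.ext
      rw [Submodule.coe_sum]
      change A.vecMulLinear y = ∑ i, y i • A i
      rw [Matrix.vecMulLinear_apply, Matrix.vecMul_eq_sum]
    rw [h2]
    exact Submodule.sum_mem _ fun i _ => Submodule.smul_mem _ _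
      (Submodule.subset_span ⟨i, rfl⟩)
  · funext i j
    rw [gram, Matrix.mul_apply]
    rfl

theorem free_image {G : Type} [Group G] (htf : TorsionFree G) {m k : ℕ}
    (A : Matrix (Fin m) (Fin k) (MonoidAlgebra ℤ G)) (h : ObtuseImage A) :
    Module.Finite (MonoidAlgebra ℤ G) (Im A) ∧ Module.Free (MonoidAlgebra ℤ G) (Im A) := by
  have htf' : ∀ g : G, ∀ k : ℕ, 0 < k → g ^ k = 1 → g = 1 := fun g k hk h =>
    htf g (isOfFinOrder_iff_pow_eq_one.2 ⟨k, hk, h⟩)
  have h1 : HasObtuseGenerators G (Im A) := by
    rcases h with h | h
    · exact h
    · obtain ⟨v, h2, h3⟩ := rows A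
      refine ⟨stdIm A, m, v, stdIm_pos A, h2, ?_⟩
      rw [h3]
      exact h
  obtain ⟨φ, r, v, h2, h3, h4⟩ := h1
  rcases h4 with ⟨σ, h5, h6⟩ | h4
  · exact free_of_obtuse φ v htf' h2 h3 h5 h6
  · obtain ⟨σ, h5, h6⟩ := obtuse_of_acyclic φ v h4
    exact free_of_obtuse φ v htf' h2 h3 h5 h6

/-- `Bd G n A` (from `Pool.Agent.TH57.FF.BdDefs`): `A` is the matrix of `F_{n+1} → F_n` in an exact
sequence `F_{n+1} → F_n → ... → F_0 → ℤ → 0` of `ℤG`-modules in which all `F_i` are free with finite
bases. `TypeFP G` and `TypeFF G` are the two sides of Q1.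

Let `G` be torsion-free. (1) If the image of `A` has a positive definite hermitian form and generators
whose translates have nonpositive inner products up to signs, or such that the graph of nonzero inner
products between the translates has no cycles, then `G` is of type FF, with a free resolution of length
`n + 1`; in particular this is true if the rows of `A` have one of these properties for the standard
form. (2) If the matrix `A` of `F_{n+2} → F_{n+1}` has a projective cokernel and `A^*` has one of these
properties, then `G` is of type FF, with a free resolution of length `n + 2`. (3) For every group, a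
matrix `F_{n+2} → F_{n+1}` can be replaced by one (with the same `n`) whose rows have norm `≤ 3` and inner
products `-1, 0, 1` with the other translates of rows, and each row has the inner product `1` with at
most one translate of a row. (4) So all groups of type FP are of type FF if and only if the projective
images of the matrices of this kind are stably free, for all groups and all `n`. -/
theorem result :
    (∀ (G : Type) [Group G], TorsionFree G → ∀ (n m k : ℕ)
      (A : Matrix (Fin m) (Fin k) (MonoidAlgebra ℤ G)), Bd G n A → ObtuseImage A →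
      FFle G (n + 1)) ∧
    (∀ (G : Type) [Group G], TorsionFree G → ∀ (n m k : ℕ)
      (A : Matrix (Fin m) (Fin k) (MonoidAlgebra ℤ G)), Bd G (n + 1) A →
      Module.Projective (MonoidAlgebra ℤ G) (Cok A) → ObtuseImage (adj A) → FFle G (n + 2)) ∧
    (∀ (G : Type) [Group G] (n m k : ℕ) (A : Matrix (Fin m) (Fin k) (MonoidAlgebra ℤ G)),
      Bd G (n + 1) A →
      ∃ (m' k' : ℕ) (A' : Matrix (Fin m') (Fin k') (MonoidAlgebra ℤ G)),
        Bd G (n + 1) A' ∧ OneAcutePartner A') ∧
    ((∀ (G : Type) [Group G], TypeFP G → TypeFF G) ↔
      ∀ (G : Type) [Group G] (n m k : ℕ) (A : Matrix (Fin m) (Fin k) (MonoidAlgebra ℤ G)),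
        Bd G (n + 1) A → OneAcutePartner A → StablyFreeIfProjective A) := by
  refine ⟨?_, ?_, fun G _ n m k A hA => ?_, ?_, ?_⟩
  · intro G _ htf n m k A hA h
    have h2 := FFle_of_FR n A hA 0 (free_image htf A h)
    have h3 : 0 + n + 1 = n + 1 := by ring
    rwa [h3] at h2
  · intro G _ htf n m k A hA hP h
    obtain ⟨l, B, hB, hAB⟩ := hA
    obtain ⟨Y, hY⟩ := TH57.Thr.regular_of_projective A _ hP (LinearEquiv.refl _ _)
    obtain ⟨h1, h2⟩ := free_image htf (adj A) h
    have hSFC : TH57.Thr.SFC A := by
      apply TH57.TT2.SFC_of_adj
      refine Pool.Agent.R719.DD.SFC_of_RB (adj A) (RB_of_free (adj A) h1 h2) (adj Y) ?_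
      rw [← adj_mul, ← adj_mul, ← Matrix.mul_assoc, hY]
    have h3 := FFle_of_FR n B hB 1 (TH57.TT2.FR_proj A B hAB hSFC)
    have h4 : 1 + n + 1 = n + 2 := by ring
    rwa [h4] at h3
  · obtain ⟨N, A', hA', h⟩ := Bd_acute n A hA
    exact ⟨N, N, A', hA', h⟩
  · intro h G _ n m k A hA _ hP
    exact (FF_iff_Im (n + 1) A hA hP).1 (h G (FP_of_Bd (n + 1) A hA hP))
  · intro h G _ hFP
    obtain ⟨N, hN⟩ := FP_iff.1 hFP
    obtain ⟨m, k, A, hA⟩ := exists_Bd good_PF (fun M _ _ hM => hM.1) N hN (N + 1)
    obtain ⟨N', A', hA', hD⟩ := Bd_acute N A hA
    have hP := Im_proj hN (N + 1) (by omega) A' hA'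
    exact (FF_iff_Im (N + 1) A' hA' hP).2 (h G N N' N' A' hA' hD hP)

end Pool.Agent.Results.MP_d19827_al.ObtuseGenerators
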